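import Pool.Graph.R_pool_sql_team_8f841797.Results.MP_a0aa5b_al.CI

/-!
# Numerical semigroups for which `E(S)` is an antichain
-/

set_option autoImplicit false

namespace Pool.Agent.KS6_40.NS

open PowerSeries Finset Pool.Agent.H26.NS
open Pool.Agent.Results.MP_a0aa5b_al.CI (PS IsExp Pres ident facts)
open scoped Classical

variable {k : ℕ} {n : Fin k → ℕ}

lemma analytic (h0 : ∀ i, n i ≠ 0) (hfin : {s | s ∉ Set.range (ph n)}.Finite)
    {D : Finset ℕ} {α : ℕ → ℕ} (hD : ∀ d ∈ D, d ≠ 0)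
    (h : (PowerSeries.mk fun s => if s ∈ Set.range (ph n) then 1 else 0 : ℤ⟦X⟧) *
      ∏ i, (1 - X ^ n i) = ∏ d ∈ D, (1 - X ^ d) ^ α d) :
    k = ∑ d ∈ D, α d + 1 ∧ ∏ i, n i = ∏ d ∈ D, d ^ α d ∧ ∀ i, n i = 1 ∨ ∃ d ∈ D, n i ∣ d := by
  let P : Polynomial ℤ := 1 - (1 - Polynomial.X) * ∑ g ∈ hfin.toFinset, Polynomial.X ^ g
  have hP : (P : ℤ⟦X⟧) = (1 - X) * PowerSeries.mk fun s => if s ∈ Set.range (ph n) then 1 else 0 := by
    have : (PowerSeries.mk fun s => if s ∈ Set.range (ph n) then 1 else 0 : ℤ⟦X⟧) =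
        geo 1 - ((∑ g ∈ hfin.toFinset, Polynomial.X ^ g : Polynomial ℤ) : ℤ⟦X⟧) := by
      ext s
      simp only [geo, coeff_mk, map_sub, Polynomial.coeff_coe, Polynomial.finsetSum_coeff,
        Polynomial.coeff_X_pow, sum_ite_eq, Set.Finite.mem_toFinset, Set.mem_ofPred_eq, one_dvd]
      split_ifs <;> simp
    have g := geo_mul 0
    rw [zero_add, pow_one] at g
    rw [this, mul_sub, g]
    simp [P]
  have e : P * ∏ i, (1 - Polynomial.X ^ n i) =
      (1 - Polynomial.X) * ∏ d ∈ D, (1 - Polynomial.X ^ d) ^ α d := by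
    apply Polynomial.coe_injective
    have q : ((∏ i, (1 - Polynomial.X ^ n i) : Polynomial ℤ) : ℤ⟦X⟧) = ∏ i, (1 - X ^ n i) := by
      rw [← Polynomial.coeToPowerSeries.ringHom_apply, map_prod]
      simp
    have q' : ((∏ d ∈ D, (1 - Polynomial.X ^ d) ^ α d : Polynomial ℤ) : ℤ⟦X⟧) =
        ∏ d ∈ D, (1 - X ^ d) ^ α d := by
      rw [← Polynomial.coeToPowerSeries.ringHom_apply, map_prod]
      simp
    simp only [Polynomial.coe_mul, hP, q, q', mul_assoc, h]
    simp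
  have gs : ∀ m : ℕ, (1 - Polynomial.X ^ m : Polynomial ℤ) =
      (1 - Polynomial.X) * ∑ j ∈ range m, Polynomial.X ^ j := fun m => (mul_neg_geom_sum _ _).symm
  have c := cancel_pow k (∑ d ∈ D, α d + 1) (P * ∏ i, ∑ j ∈ range (n i), Polynomial.X ^ j)
    (∏ d ∈ D, (∑ j ∈ range d, Polynomial.X ^ j) ^ α d)
    (by simp [P, Polynomial.eval_prod, Polynomial.eval_finsetSum, prod_eq_zero_iff, h0])
    (by
      rw [Polynomial.eval_prod]
      refine prod_ne_zero_iff.2 fun d hd => ?_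
      simp [Polynomial.eval_finsetSum, hD d hd]) (by
      have e2 : ∏ d ∈ D, (1 - Polynomial.X ^ d : Polynomial ℤ) ^ α d =
          (1 - Polynomial.X) ^ (∑ d ∈ D, α d) *
            ∏ d ∈ D, (∑ j ∈ range d, Polynomial.X ^ j) ^ α d := by
        rw [← prod_pow_eq_pow_sum, ← prod_mul_distrib]
        exact prod_congr rfl fun d _ => by rw [gs d, mul_pow]
      rw [e2] at e
      simp only [gs (n _), prod_mul_distrib, prod_const, card_univ, Fintype.card_fin] at e
      rw [pow_succ]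
      linear_combination e)
  refine ⟨c.1, ?_, fun i => ?_⟩
  · have := c.2
    simp [P, Polynomial.eval_prod, Polynomial.eval_finsetSum] at this
    exact_mod_cast this
  · by_cases h1 : n i = 1
    · exact Or.inl h1
    right
    have z := Complex.isPrimitiveRoot_exp (n i) (h0 i)
    have := congrArg (Polynomial.aeval (Complex.exp (2 * Real.pi * Complex.I / n i))) e
    simp only [map_mul, map_prod, map_sub, map_pow, map_one, Polynomial.aeval_X] at this
    rw [prod_eq_zero (mem_univ i) (by rw [z.pow_eq_one, sub_self]), mul_zero] at this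
    rcases mul_eq_zero.mp this.symm with q | q
    · exact absurd (sub_eq_zero.mp q).symm (z.ne_one (by have := h0 i; omega))
    · obtain ⟨d, hd, q⟩ := prod_eq_zero_iff.mp q
      exact ⟨d, hd, z.dvd_of_pow_eq_one _ (sub_eq_zero.mp (eq_zero_of_pow_eq_zero q)).symm⟩

/-- what is known when `E(S)` is the antichain `D`: `Z d` is the set of the factorizations of `d`,
of which there are `α d + 1`, and `D` is the set of the minimal elements with two factorizations -/
structure Facts (n : Fin k → ℕ) (D : Finset ℕ) (α : ℕ → ℕ) (Z : ℕ → Finset (Fin k → ℕ)) :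
    Prop where
  ne : ∀ d ∈ D, d ≠ 0
  pos : ∀ d ∈ D, α d ≠ 0
  min : ∀ d, d ∈ D ↔ MinT n d
  mem : ∀ d ∈ D, ∀ w, w ∈ Z d ↔ ph n w = d
  card : ∀ d ∈ D, (Z d).card = α d + 1
  sum : k = ∑ d ∈ D, α d + 1
  prod : ∏ i, n i = ∏ d ∈ D, d ^ α d
  dvd : ∀ i, n i = 1 ∨ ∃ d ∈ D, n i ∣ d

theorem basic (hmin : ∀ i w, ph n w = n i → w i ≠ 0) :
    (∀ i, n i ≠ 0) ∧ Function.Injective n ∧ (¬ TT n 0) ∧ (∀ i, ¬ TT n (n i)) ∧ ¬ TT n 1 := by
  have h0 : ∀ i, n i ≠ 0 := fun i h => hmin i 0 (ph_zero.trans h.symm) rfl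
  have hi : Function.Injective n := fun i j h => by
    by_contra hij
    exact hmin i (Pi.single j 1) (by rw [ph_single, h, one_mul]) (Pi.single_eq_of_ne hij 1)
  have t0 : ¬ TT n 0 := fun ⟨x, y, p, q, r⟩ => p ((ph_eq_zero h0 q).trans (ph_eq_zero h0 r).symm)
  have tn : ∀ i, ¬ TT n (n i) := by
    have : ∀ i w, ph n w = n i → w = Pi.single i 1 := fun i w h => by
      obtain ⟨y, rfl⟩ := split (Nat.one_le_iff_ne_zero.mpr (hmin i w h))
      rw [ph_add, ph_single] at h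
      rw [ph_eq_zero h0 (show ph n y = 0 by omega), zero_add]
    exact fun i ⟨x, y, p, q, r⟩ => p ((this i x q).trans (this i y r).symm)
  have t1 : ¬ TT n 1 := fun h => by
    obtain ⟨x, -, -, q, -⟩ := id h
    obtain ⟨i, hx⟩ : ∃ i, x i ≠ 0 := by
      by_contra hh
      push Not at hh
      rw [show x = 0 from funext hh, ph_zero] at q
      omega
    obtain ⟨y, rfl⟩ := split (Nat.one_le_iff_ne_zero.mpr hx)
    rw [ph_add, ph_single] at q
    exact tn i (by rwa [show n i = 1 by have := h0 i; omega])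
  exact ⟨h0, hi, t0, tn, t1⟩

theorem factsOf (hmin : ∀ i w, ph n w = n i → w i ≠ 0)
    (hfin : {s | s ∉ Set.range (ph n)}.Finite) (e : ℕ → ℤ) (he : IsExp (Set.range (ph n)) e)
    (D : Finset ℕ) (hE : {d | 2 ≤ d ∧ e d ≠ 0 ∧ d ∉ Set.range n} = (D : Set ℕ))
    (hanti : ∀ a ∈ D, ∀ b ∈ D, a ≠ b → ¬ ∃ s ∈ Set.range (ph n), b = a + s) :
    ∃ (α : ℕ → ℕ) (Z : ℕ → Finset (Fin k → ℕ)), Facts n D α Z ∧ ∀ d ∈ D, e d = α d := by
  obtain ⟨h0, hi, t0, tn, t1⟩ := basic hmin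
  have hE' : ∀ d, (2 ≤ d ∧ e d ≠ 0 ∧ d ∉ Set.range n) ↔ d ∈ D := fun d => by
    have := Set.ext_iff.mp hE d
    simpa only [Set.mem_ofPred_eq, mem_coe] using this
  have hn : ∀ i, n i ≤ ∑ i, n i := fun i => single_le_sum (fun _ _ => Nat.zero_le _) (mem_univ i)
  have hdD : ∀ d ∈ D, d ≤ ∑ d ∈ D, d := fun d hd =>
    single_le_sum (f := fun d : ℕ => d) (fun _ _ => Nat.zero_le _) hd
  set M := ∑ d ∈ D, d + ∑ i, n i + 1 with hM
  have id1 := ident h0 hi e he M (fun j hj => by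
    by_contra h
    have := hdD _ ((hE' (j + 1)).mp ⟨by omega, h, fun ⟨i, h⟩ => by have := hn i; omega⟩)
    omega) (by omega) fun i => by have := hn i; omega
  obtain ⟨f1, f2⟩ := facts h0 _ id1
  generalize hf : (fun j => e (j + 1) - (if j = 0 then 1 else 0) +
    if j + 1 ∈ Set.range n then 1 else 0) = f
  have hf' := congrFun hf
  simp only [hf'] at id1 f1 f2
  let U : AddSubmonoid ℕ := ⟨⟨{s | s = 0 ∨ TT n s}, by
    rintro x y (rfl | hx) hy
    · rwa [zero_add]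
    · rcases hy with rfl | ⟨w, -, -, rfl, -⟩
      exacts [Or.inr hx, Or.inr (hx.add w)]⟩, Or.inl rfl⟩
  have s1 := exp_supp (U := U) _ f f1
  have s2 : ∀ j, j ≠ 0 → j + 1 ∉ Set.range n → f j = e (j + 1) := fun j p q => by
    rw [← hf', if_neg p, if_neg q]; simp
  have s3 : ∀ j, TT n (j + 1) → f j ≠ 0 → j + 1 ∈ D := fun j p q => by
    have c1 : j ≠ 0 := by rintro rfl; exact t1 p
    have c2 : j + 1 ∉ Set.range n := fun ⟨i, h⟩ => tn i (h ▸ p)
    exact (hE' _).mp ⟨by omega, s2 j c1 c2 ▸ q, c2⟩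
  have s4 : ∀ j, MinT n (j + 1) → ∃ (Z : Finset (Fin k → ℕ)) (c : ℕ),
      (∀ w, w ∈ Z ↔ ph n w = j + 1) ∧ Z.card = c + 1 ∧ f j = c ∧ c ≠ 0 := by
    intro j mj
    obtain ⟨Z, z1, z2⟩ := f2 _ (by omega) mj
    obtain ⟨x, y, p, q, r⟩ := mj.1
    have c2 : 1 < Z.card := one_lt_card.mpr ⟨x, (z1 x).mpr q, y, (z1 y).mpr r, p⟩
    rw [coeff_prod_un (U := U) ⟨by omega, ?_⟩ _ f s1] at z2
    · refine ⟨Z, Z.card - 1, z1, by omega, ?_, by omega⟩
      split_ifs at z2 <;> omega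
    · rintro x (hx | hx) y (hy | ⟨w, -, -, rfl, -⟩) h
      exacts [Or.inl hx, Or.inl hx, Or.inr hy, Or.inr (by rw [mj.2 x hx w h, ph_zero])]
  have s5 : ∀ t, MinT n t → t ∈ D := fun t mt => by
    obtain ⟨j, rfl⟩ := Nat.exists_eq_succ_of_ne_zero (show t ≠ 0 from fun h => t0 (h ▸ mt.1))
    obtain ⟨_, c, -, -, p, q⟩ := s4 j mt
    exact s3 j mt.1 (by omega)
  have s6 : ∀ d ∈ D, ∃ t w, MinT n t ∧ t + ph n w = d := fun d hd => by
    obtain ⟨p, q, r⟩ := (hE' d).mpr hd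
    obtain ⟨j, rfl⟩ := Nat.exists_eq_succ_of_ne_zero (show d ≠ 0 by omega)
    exact exists_min h0 _ ((s1 j (by have := hdD _ hd; simp; omega)
      (by rwa [s2 j (by omega) r])).resolve_left (by omega))
  have s7 : ∀ d ∈ D, MinT n d := fun d hd => by
    obtain ⟨t, w, p, q⟩ := s6 d hd
    by_cases htd : t = d
    · exact htd ▸ p
    · exact absurd ⟨_, ⟨w, rfl⟩, q.symm⟩ (hanti t (s5 t p) d hd htd)
  have s8 : ∀ d ∈ D, d ≠ 0 := fun d hd h => t0 (h ▸ (s7 d hd).1)
  have s9 : ∀ d ∈ D, ∃ (Z : Finset (Fin k → ℕ)) (c : ℕ),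
      (∀ w, w ∈ Z ↔ ph n w = d) ∧ Z.card = c + 1 ∧ f (d - 1) = c ∧ c ≠ 0 := fun d hd => by
    obtain ⟨j, rfl⟩ := Nat.exists_eq_add_one_of_ne_zero (s8 d hd)
    exact s4 j (s7 _ hd)
  choose! Z α z1 z2 z3 z4 using s9
  have hprod : (∏ j ∈ range M, un j ^ f j : (ℤ⟦X⟧)ˣ) = ∏ d ∈ D, un (d - 1) ^ f (d - 1) := by
    rw [← prod_image (s := D) (g := fun d => d - 1) (f := fun j => un j ^ f j) (by
      intro x hx y hy hxy
      have h1 := s8 x hx
      have h2 := s8 y hy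
      have hxy : x - 1 = y - 1 := hxy
      omega)]
    symm
    apply prod_subset
    · intro j hj
      obtain ⟨d, hd, rfl⟩ := mem_image.1 hj
      have := hdD d hd
      rw [mem_range]
      omega
    · intro j hj hne
      rw [show f j = 0 from by_contra fun h => hne (by
        have h3 := s3 j ((s1 j hj h).resolve_left (by omega)) h
        exact mem_image.2 ⟨j + 1, h3, by omega⟩), zpow_zero]
  rw [hprod, Units.coe_prod] at id1
  have hprod' : ∏ d ∈ D, ((un (d - 1) ^ f (d - 1) : (ℤ⟦X⟧)ˣ) : ℤ⟦X⟧) =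
      ∏ d ∈ D, (1 - X ^ d) ^ α d := by
    refine prod_congr rfl fun d hd => ?_
    rw [z3 d hd, zpow_natCast, Units.val_pow_eq_pow_val]
    congr 1
    show (1 - X ^ (d - 1 + 1) : ℤ⟦X⟧) = 1 - X ^ d
    rw [Nat.sub_add_cancel (Nat.one_le_iff_ne_zero.2 (s8 d hd))]
  rw [hprod'] at id1
  obtain ⟨hk, hp, hd⟩ := analytic h0 hfin s8 id1.symm
  refine ⟨α, Z, ⟨s8, z4, fun d => ⟨s7 d, s5 d⟩, z1, z2, hk, hp, hd⟩, fun d hd => ?_⟩
  obtain ⟨p, q, r⟩ := (hE' d).mpr hd
  have h1 := s2 (d - 1) (by omega)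
  rw [Nat.sub_add_cancel (by omega)] at h1
  rw [← h1 r, z3 d hd]

/-- the assignment of a divisible element of `D` to every generator but `k0` -/
theorem matching {D : Finset ℕ} {α : ℕ → ℕ} {Z : ℕ → Finset (Fin k → ℕ)} (F : Facts n D α Z)
    (k0 : Fin k) (hk0 : ∀ d ∈ D, ∃ w, ph n w = d ∧ w k0 ≠ 0) :
    ∃ g : Fin k → ℕ, (∀ i ≠ k0, g i ∈ D ∧ n i ∣ g i) ∧
      ∏ i ∈ univ.erase k0, g i = ∏ d ∈ D, d ^ α d := by
  have c1 : ∀ d ∈ D, ((univ.erase k0).filter fun i => n i ∣ d).card ≤ α d := by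
    intro d hd
    obtain ⟨u, hu, hu0⟩ := hk0 d hd
    have h1 : ((Z d).erase u).card = α d := by
      rw [card_erase_of_mem ((F.mem d hd u).2 hu), F.card d hd]; rfl
    rw [← h1]
    refine card_le_card_of_injOn (fun i => (Pi.single i (d / n i) : Fin k → ℕ)) ?_ ?_
    · intro i hi
      obtain ⟨hi1, hi2⟩ := mem_filter.1 hi
      have hi3 := ne_of_mem_erase hi1
      rw [mem_coe, mem_erase]
      constructor
      · intro h
        apply hu0
        rw [← h]
        exact Pi.single_eq_of_ne hi3.symm _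
      · show Pi.single i (d / n i) ∈ Z d
        rw [F.mem d hd, ph_single, Nat.div_mul_cancel hi2]
    · intro i hi j hj hij
      by_contra hne
      have h2 := congrFun hij i
      have h3 := Nat.div_mul_cancel (mem_filter.1 hi).2
      simp only [Pi.single_eq_same, Pi.single_eq_of_ne hne] at h2
      rw [h2, zero_mul] at h3
      exact F.ne d hd h3.symm
  have c2 : ∀ i ∈ univ.erase k0, 1 ≤ (D.filter fun d => n i ∣ d).card := by
    intro i hi
    have hi' := ne_of_mem_erase hi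
    rw [Nat.one_le_iff_ne_zero, Finset.card_ne_zero]
    rcases F.dvd i with h | ⟨d, hd, h⟩
    · rcases D.eq_empty_or_nonempty with h2 | ⟨d, hd⟩
      · have h3 := F.sum
        rw [h2, sum_empty] at h3
        exfalso
        apply hi'
        have a1 := i.2
        have a2 := k0.2
        exact Fin.ext (by omega)
      · exact ⟨d, mem_filter.2 ⟨hd, h ▸ one_dvd d⟩⟩
    · exact ⟨d, mem_filter.2 ⟨hd, h⟩⟩
  have c3 : ∑ d ∈ D, ((univ.erase k0).filter fun i => n i ∣ d).card =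
      ∑ i ∈ univ.erase k0, (D.filter fun d => n i ∣ d).card := by
    simp only [card_filter]
    exact sum_comm
  have c4 : ∑ i ∈ univ.erase k0, 1 = ∑ d ∈ D, α d := by
    rw [← card_eq_sum_ones, card_erase_of_mem (mem_univ _), card_univ, Fintype.card_fin]
    have := F.sum
    omega
  have c5 := sum_le_sum c1
  have c6 := sum_le_sum c2
  have c7 : ∀ d ∈ D, ((univ.erase k0).filter fun i => n i ∣ d).card = α d :=
    (sum_eq_sum_iff_of_le c1).1 (by omega)
  have c8 : ∀ i ∈ univ.erase k0, 1 = (D.filter fun d => n i ∣ d).card :=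
    (sum_eq_sum_iff_of_le c2).1 (by omega)
  have c9 : ∀ i, i ≠ k0 → ∃ d, D.filter (fun d => n i ∣ d) = {d} := fun i hi =>
    card_eq_one.1 (c8 i (mem_erase.2 ⟨hi, mem_univ _⟩)).symm
  choose! g hg using c9
  have g1 : ∀ i ≠ k0, g i ∈ D ∧ n i ∣ g i := fun i hi => by
    have : g i ∈ D.filter (fun d => n i ∣ d) := by rw [hg i hi]; exact mem_singleton_self _
    exact mem_filter.1 this
  refine ⟨g, g1, ?_⟩
  rw [← prod_fiberwise_of_maps_to (g := g) (t := D) (fun i hi => (g1 i (ne_of_mem_erase hi)).1)]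
  refine prod_congr rfl fun d hd => ?_
  rw [prod_congr rfl (g := fun _ => d) fun i hi => (mem_filter.1 hi).2, prod_const, ← c7 d hd]
  congr 2
  ext i
  simp only [mem_filter]
  constructor
  · rintro ⟨hi, rfl⟩
    exact ⟨hi, (g1 i (ne_of_mem_erase hi)).2⟩
  · rintro ⟨hi, h⟩
    refine ⟨hi, ?_⟩
    have h2 : d ∈ D.filter (fun d => n i ∣ d) := mem_filter.2 ⟨hd, h⟩
    rw [hg i (ne_of_mem_erase hi), mem_singleton] at h2
    exact h2.symm

theorem finish (h0 : ∀ i, n i ≠ 0) (hfin : {s | s ∉ Set.range (ph n)}.Finite) {D : Finset ℕ}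
    {α : ℕ → ℕ} {Z : ℕ → Finset (Fin k → ℕ)} (F : Facts n D α Z) (k0 : Fin k)
    (hk0 : ∀ d ∈ D, ∃ w, ph n w = d ∧ w k0 ≠ 0) :
    ∃ ρ, Pres n ρ ∧ (∀ σ ⊂ ρ, ¬ Pres n σ) ∧ ρ.card + 1 = k := by
  obtain ⟨g, g1, g3⟩ := matching F k0 hk0
  choose! u hu u0 using hk0
  let ρ := D.biUnion fun d => ((Z d).erase (u d)).image fun w => (w, u d)
  have m : ∀ x y, (x, y) ∈ ρ ↔ x ≠ y ∧ ph n x ∈ D ∧ y = u (ph n x) := by
    intro x y
    simp only [ρ, mem_biUnion, mem_image, mem_erase, Prod.mk.injEq]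
    constructor
    · rintro ⟨d, hd, w, ⟨h1, h2⟩, rfl, rfl⟩
      have h3 := (F.mem d hd w).1 h2
      refine ⟨h1, by rwa [h3], by rw [h3]⟩
    · rintro ⟨h, hd, rfl⟩
      exact ⟨ph n x, hd, x, ⟨h, (F.mem _ hd x).2 rfl⟩, rfl, rfl⟩
  have m2 : ∀ x y, (x, y) ∈ ρ → ph n x = ph n y := by
    intro x y h
    obtain ⟨_, h2, h3⟩ := (m x y).mp h
    rw [h3, hu _ h2]
  have hc : ∀ x y, addConGen (fun x y => (x, y) ∈ ρ) x y → ph n x = ph n y := by
    let φ : (Fin k → ℕ) →+ ℕ := ⟨⟨ph n, ph_zero⟩, ph_add⟩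
    exact fun x y h => (AddCon.addConGen_le (c := AddCon.ker φ)).mpr m2 h
  have r : ∀ x, ph n x ∈ D → addConGen (fun x y => (x, y) ∈ ρ) x (u (ph n x)) := by
    intro x h
    by_cases e : x = u (ph n x)
    · have h2 := AddCon.refl (addConGen (fun x y => (x, y) ∈ ρ)) x
      exact e ▸ h2
    · exact AddConGen.Rel.of _ _ ((m x _).mpr ⟨e, h, rfl⟩)
  refine ⟨ρ, fun x y => ⟨hc x y, normal h0 hfin _ hc k0 (fun i => if i = k0 then 1 else g i / n i)
    (fun i => ?_) ?_ x y⟩, fun σ hσ hs => ?_, ?_⟩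
  · by_cases e : i = k0
    · exact ⟨0, by simpa [e] using AddCon.refl _ _⟩
    have q := ph_single (n := n) i (g i / n i)
    rw [Nat.div_mul_cancel (g1 i e).2] at q
    simp only [if_neg e]
    obtain ⟨y, hy⟩ := split (Nat.one_le_iff_ne_zero.mpr (u0 _ (g1 i e).1))
    have h2 := r (Pi.single i (g i / n i)) (by rw [q]; exact (g1 i e).1)
    rw [q, hy] at h2
    exact ⟨y, h2⟩
  · rw [← mul_prod_erase _ _ (mem_univ k0), if_pos rfl, one_mul]
    refine Nat.eq_of_mul_eq_mul_right (prod_pos fun i (_ : i ∈ univ.erase k0) =>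
      Nat.pos_of_ne_zero (h0 i)) ?_
    rw [mul_prod_erase _ _ (mem_univ k0), F.prod, ← g3, ← prod_mul_distrib]
    exact prod_congr rfl fun i hi => by
      rw [if_neg (ne_of_mem_erase hi), Nat.div_mul_cancel (g1 i (ne_of_mem_erase hi)).2]
  · obtain ⟨⟨x, y⟩, h1, h2⟩ := exists_of_ssubset hσ
    obtain ⟨h3, h4, h5⟩ := (m x y).mp h1
    refine h3 (isolated (n := n) x ((F.min _).1 h4) _ (fun p q h => ?_) y
      ((hs x y).mpr (m2 x y h1)))
    obtain ⟨h6, h7, h8⟩ := (m p q).mp (hσ.1 h)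
    refine ⟨m2 p q (hσ.1 h), h6, ?_, ?_⟩
    · rintro rfl
      exact h2 (by rw [h5, ← h8]; exact h)
    · rintro rfl
      apply h3
      have h9 : ph n q = ph n p := by
        rw [h8]; exact hu _ h7
      rw [h5, h9, ← h8]
  · have h1 : ρ.card = ∑ d ∈ D, α d := by
      rw [card_biUnion]
      · refine sum_congr rfl fun d hd => ?_
        rw [card_image_of_injective _ fun _ _ h => (Prod.mk.inj h).1,
          card_erase_of_mem ((F.mem d hd _).2 (hu d hd)), F.card d hd]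
        rfl
      · intro a ha b hb hab
        show Disjoint _ _
        refine disjoint_left.mpr fun p h1 h2 => hab ?_
        obtain ⟨_, -, rfl⟩ := mem_image.mp h1
        obtain ⟨_, -, h⟩ := mem_image.mp h2
        have h3 := congrArg (ph n) (Prod.mk.inj h).2
        rw [hu b hb, hu a ha] at h3
        exact h3.symm
    rw [h1]
    exact F.sum.symm

/-- an antichain with at most two elements has a common generator -/
theorem common {D : Finset ℕ} {α : ℕ → ℕ} {Z : ℕ → Finset (Fin k → ℕ)} (F : Facts n D α Z)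
    (hD : D.card ≤ 2) : ∃ k0 : Fin k, ∀ d ∈ D, ∃ w, ph n w = d ∧ w k0 ≠ 0 := by
  have supp : ∀ d ∈ D, ∃ (w : Fin k → ℕ) (i : Fin k), ph n w = d ∧ w i ≠ 0 := fun d hd => by
    obtain ⟨x, -, -, hx, -⟩ := ((F.min d).1 hd).1
    by_contra hh
    push Not at hh
    have h1 : x = 0 := funext fun i => hh x i hx
    rw [h1, ph_zero] at hx
    exact F.ne d hd hx.symm
  rcases Nat.lt_or_ge D.card 1 with h | h
  · have h1 : D = ∅ := card_eq_zero.1 (by omega)
    have h2 := F.sum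
    rw [h1, sum_empty] at h2
    exact ⟨⟨0, by omega⟩, fun d hd => by rw [h1] at hd; exact absurd hd (notMem_empty d)⟩
  rcases Nat.lt_or_ge D.card 2 with h' | h'
  · obtain ⟨a, rfl⟩ := card_eq_one.1 (show D.card = 1 by omega)
    obtain ⟨w, i, h1, h2⟩ := supp a (mem_singleton_self a)
    exact ⟨i, fun d hd => by rw [mem_singleton.1 hd]; exact ⟨w, h1, h2⟩⟩
  obtain ⟨a, b, hab, rfl⟩ := card_eq_two.1 (show D.card = 2 by omega)
  have ha : a ∈ ({a, b} : Finset ℕ) := by simp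
  have hb : b ∈ ({a, b} : Finset ℕ) := by simp
  have hk := F.sum
  rw [sum_pair hab] at hk
  have hd : ∀ i, n i ∣ a ∨ n i ∣ b := fun i => by
    rcases F.dvd i with h | ⟨d, hd, h⟩
    · exact Or.inl (h ▸ one_dvd a)
    · rcases mem_insert.1 hd with h2 | h2
      · exact Or.inl (h2 ▸ h)
      · rw [mem_singleton.1 h2] at h
        exact Or.inr h
  have cA := card_le_card (pure_sub (F.mem a ha))
  have cB := card_le_card (pure_sub (F.mem b hb))
  rw [pure_card (F.ne a ha), F.card a ha] at cA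
  rw [pure_card (F.ne b hb), F.card b hb] at cB
  by_cases hA : (univ.filter fun i => n i ∣ a).card = α a + 1
  · obtain ⟨k0, g, -, -, -, hu, hv⟩ :=
      select (F.ne a ha) (F.ne b hb) ((F.min b).1 hb) (F.mem b hb) (F.card b hb) hk hA hd
    refine ⟨k0, fun d hd => ?_⟩
    rcases mem_insert.1 hd with h2 | h2
    · rw [h2]; exact hu
    · rw [mem_singleton.1 h2]
      exact hv
  · have h3 := card_union_le (univ.filter fun i => n i ∣ a) (univ.filter fun i => n i ∣ b)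
    rw [← filter_or, filter_true_of_mem fun i _ => hd i, card_univ, Fintype.card_fin] at h3
    obtain ⟨k0, g, -, -, -, hv, hu⟩ :=
      select (F.ne b hb) (F.ne a ha) ((F.min a).1 ha) (F.mem a ha) (F.card a ha)
        (α := α b) (by omega) (by omega) fun i => (hd i).symm
    refine ⟨k0, fun d hd => ?_⟩
    rcases mem_insert.1 hd with h2 | h2
    · rw [h2]; exact hu
    · rw [mem_singleton.1 h2]
      exact hv

end Pool.Agent.KS6_40.NS
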