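import Pool.Agent.KS6_40.NS.Anti

/-!
# Antichains `E(S)`: reachability
-/

set_option autoImplicit false

namespace Pool.Agent.KS6_40.NS

open Finset Pool.Agent.H26.NS
open Pool.Agent.Results.MP_a0aa5b_al.CI (Pres)
open scoped Classical

variable {k : ℕ} {n : Fin k → ℕ}

theorem normal' (h0 : ∀ i, n i ≠ 0) (hfin : {s | s ∉ Set.range (ph n)}.Finite)
    (c : AddCon (Fin k → ℕ)) (hc : ∀ x y, c x y → ph n x = ph n y) (k0 : Fin k) (r : Fin k → ℕ)
    (d : Fin k → ℕ)
    (hd : ∀ i ≠ k0, ∃ y : Fin k → ℕ, c (Pi.single i (d i)) y ∧ ∃ j, y j ≠ 0 ∧ r j < r i)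
    (hp : ∏ i ∈ univ.erase k0, d i = n k0) (x y : Fin k → ℕ) (h : ph n x = ph n y) : c x y := by
  -- normal forms
  have nf : ∀ w : Fin k → ℕ, ∃ z : Fin k → ℕ, c w z ∧ ∀ i ≠ k0, z i < d i := by
    intro w
    obtain ⟨Z, hZ, -⟩ := exists_Z h0 (ph n w)
    set B := ph n w + 1 with hB
    set R := ∑ i, r i with hR
    have hrR : ∀ i, r i ≤ R := fun i => single_le_sum (f := r) (fun _ _ => Nat.zero_le _) (mem_univ i)
    let Φ : (Fin k → ℕ) → ℕ := fun z => ∑ i, z i * B ^ (R - r i)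
    have Φadd : ∀ a b, Φ (a + b) = Φ a + Φ b := fun a b => by
      simp [Φ, add_mul, sum_add_distrib]
    obtain ⟨z, hz, hmax⟩ := exists_max_image (Z.filter fun z => c w z) Φ
      ⟨w, mem_filter.2 ⟨(hZ w).2 rfl, c.refl w⟩⟩
    obtain ⟨hz1, hz2⟩ := mem_filter.1 hz
    refine ⟨z, hz2, fun i hi => ?_⟩
    by_contra hlt
    push Not at hlt
    obtain ⟨u, hu⟩ := split hlt
    obtain ⟨y, hy, j, hyj, hji⟩ := hd i hi
    have h1 : c z (u + y) := by
      rw [hu]
      exact c.add (c.refl u) hy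
    have h2 : c w (u + y) := c.trans hz2 h1
    have h3 := hmax (u + y) (mem_filter.2 ⟨(hZ _).2 (hc _ _ h2).symm, h2⟩)
    rw [Φadd] at h3
    have h4 : Φ z = Φ u + d i * B ^ (R - r i) := by
      rw [hu, Φadd]
      congr 1
      show ∑ l, (Pi.single i (d i) : Fin k → ℕ) l * B ^ (R - r l) = _
      rw [sum_eq_single i]
      · rw [Pi.single_eq_same]
      · intro l _ hl
        rw [Pi.single_eq_of_ne hl, zero_mul]
      · intro h
        exact absurd (mem_univ i) h
    have h5 : d i ≤ ph n w := by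
      have h6 := (hZ z).1 hz1
      rw [hu, ph_add, ph_single] at h6
      have := Nat.one_le_iff_ne_zero.2 (h0 i)
      nlinarith
    have h6 : y j * B ^ (R - r j) ≤ Φ y :=
      single_le_sum (f := fun l => y l * B ^ (R - r l)) (fun _ _ => Nat.zero_le _) (mem_univ j)
    have h7 : B ^ (R - r i + 1) ≤ B ^ (R - r j) := by
      apply Nat.pow_le_pow_right (by omega)
      have := hrR i
      omega
    have h8 : 1 ≤ y j := Nat.one_le_iff_ne_zero.2 hyj
    have h9 : B ^ (R - r j) ≤ y j * B ^ (R - r j) := Nat.le_mul_of_pos_left _ h8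
    have h10 : 0 < B ^ (R - r i) := Nat.pow_pos (by omega)
    have h11 : d i * B ^ (R - r i) < B ^ (R - r i + 1) := by
      rw [pow_succ, mul_comm]
      exact Nat.mul_lt_mul_of_pos_left (by omega) h10
    omega
  have nf' : ∀ w : Fin k → ℕ, ∃ z : Fin k → ℕ, (z k0 = 0 ∧ ∀ i ≠ k0, z i < d i) ∧ ∃ t, c w (z + Pi.single k0 t) := by
    intro w
    obtain ⟨z, h1, h2⟩ := nf w
    refine ⟨Function.update z k0 0, ⟨Function.update_self _ _ _, fun i hi => ?_⟩, z k0, ?_⟩
    · rw [Function.update_of_ne hi]; exact h2 i hi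
    · have : Function.update z k0 0 + Pi.single k0 (z k0) = z := by
        funext i
        by_cases hi : i = k0
        · subst hi; simp
        · simp [hi]
      rw [this]
      exact h1
  let W := Fintype.piFinset fun i => if i = k0 then {0} else range (d i)
  have hW : ∀ z, z ∈ W ↔ (z k0 = 0 ∧ ∀ i ≠ k0, z i < d i) := by
    intro z
    simp only [W, Fintype.mem_piFinset]
    constructor
    · intro hz
      refine ⟨by simpa using hz k0, fun i hi => by simpa [hi] using hz i⟩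
    · rintro ⟨h1, h2⟩ i
      by_cases hi : i = k0
      · subst hi; simp [h1]
      · simp [hi, h2 i hi]
  have hWc : W.card = n k0 := by
    rw [← hp]
    simp only [W, Fintype.card_piFinset]
    rw [← mul_prod_erase _ _ (mem_univ k0), if_pos rfl, card_singleton, one_mul]
    refine prod_congr rfl fun i hi => ?_
    rw [if_neg (ne_of_mem_erase hi), card_range]
  have hpos := Nat.pos_of_ne_zero (h0 k0)
  have hs : Set.SurjOn (fun w => ph n w % n k0) W (range (n k0)) := by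
    intro r hr
    obtain ⟨B, hB⟩ := hfin.bddAbove
    have : r + (B + 1) * n k0 ∈ Set.range (ph n) := by
      by_contra hh
      have := hB hh
      nlinarith
    obtain ⟨w, hw⟩ := this
    obtain ⟨z, hz, t, ht⟩ := nf' w
    have h2 := congrArg (· % n k0) (hc _ _ ht)
    simp only [hw, ph_add, ph_single, Nat.add_mul_mod_self_right] at h2
    exact ⟨z, (hW z).2 hz, h2.symm.trans (Nat.mod_eq_of_lt (by simpa using hr))⟩
  have hi := injOn_of_surjOn_of_card_le _ (fun w _ => by simpa using Nat.mod_lt _ hpos) hs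
    (by rw [hWc, card_range])
  obtain ⟨z, hz, t, ht⟩ := nf' x
  obtain ⟨z', hz', t', ht'⟩ := nf' y
  have e := (hc _ _ ht).symm.trans (h.trans (hc _ _ ht'))
  rw [ph_add, ph_add, ph_single, ph_single] at e
  have e1 : z = z' := hi ((hW z).2 hz) ((hW z').2 hz') (by
    have := congrArg (· % n k0) e
    simpa only [Nat.add_mul_mod_self_right] using this)
  subst e1
  have e2 : t = t' := Nat.eq_of_mul_eq_mul_right hpos (by omega)
  subst e2
  exact c.trans ht (c.symm ht')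

/-- the assignment of a divisible element of `D` to every generator but `k0` -/
theorem matching' {D : Finset ℕ} {α : ℕ → ℕ} {Z : ℕ → Finset (Fin k → ℕ)} (F : Facts n D α Z)
    (k0 : Fin k) (r : Fin k → ℕ)
    (hr : ∀ i ≠ k0, ∃ d ∈ D, n i ∣ d ∧ ∃ w j, ph n w = d ∧ w j ≠ 0 ∧ r j < r i) :
    ∃ g : Fin k → ℕ, (∀ i ≠ k0, g i ∈ D ∧ n i ∣ g i ∧
      ∃ w j, ph n w = g i ∧ w j ≠ 0 ∧ r j < r i) ∧
      ∏ i ∈ univ.erase k0, g i = ∏ d ∈ D, d ^ α d := by
  let Q : Fin k → ℕ → Prop := fun i d => n i ∣ d ∧ ∃ w j, ph n w = d ∧ w j ≠ 0 ∧ r j < r i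
  have c1 : ∀ d ∈ D, ((univ.erase k0).filter fun i => Q i d).card ≤ α d := by
    intro d hd
    rcases ((univ.erase k0).filter fun i => Q i d).eq_empty_or_nonempty with h | ⟨i0, hi0⟩
    · rw [h, card_empty]; exact Nat.zero_le _
    obtain ⟨-, -, w0, j0, hw0, hj0, -⟩ := mem_filter.1 hi0
    -- a generator of least rank
    have hne : ∃ m, ∃ w j, ph n w = d ∧ w j ≠ 0 ∧ r j = m := ⟨_, w0, j0, hw0, hj0, rfl⟩
    obtain ⟨u, j, hu, huj, hrj⟩ := Nat.find_spec hne
    have hleast : ∀ w l, ph n w = d → w l ≠ 0 → r j ≤ r l := fun w l h1 h2 => by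
      rw [hrj]
      exact Nat.find_min' hne ⟨w, l, h1, h2, rfl⟩
    have h1 : ((Z d).erase u).card = α d := by
      rw [card_erase_of_mem ((F.mem d hd u).2 hu), F.card d hd]; rfl
    rw [← h1]
    refine card_le_card_of_injOn (fun i => (Pi.single i (d / n i) : Fin k → ℕ)) ?_ ?_
    · intro i hi
      obtain ⟨-, hi2, w, l, hw, hl, hli⟩ := mem_filter.1 hi
      rw [mem_coe, mem_erase]
      constructor
      · intro h
        have h2 : i = j := by
          by_contra hne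
          apply huj
          rw [← h]
          exact Pi.single_eq_of_ne (Ne.symm hne) _
        have := hleast w l hw hl
        rw [h2] at hli
        omega
      · show Pi.single i (d / n i) ∈ Z d
        rw [F.mem d hd, ph_single, Nat.div_mul_cancel hi2]
    · intro i hi l hl hil
      by_contra hne
      have h2 := congrFun hil i
      have h3 := Nat.div_mul_cancel (mem_filter.1 hi).2.1
      simp only [Pi.single_eq_same, Pi.single_eq_of_ne hne] at h2
      rw [h2, zero_mul] at h3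
      exact F.ne d hd h3.symm
  have c2 : ∀ i ∈ univ.erase k0, 1 ≤ (D.filter fun d => Q i d).card := by
    intro i hi
    obtain ⟨d, hd, h⟩ := hr i (ne_of_mem_erase hi)
    rw [Nat.one_le_iff_ne_zero, Finset.card_ne_zero]
    exact ⟨d, mem_filter.2 ⟨hd, h⟩⟩
  have c3 : ∑ d ∈ D, ((univ.erase k0).filter fun i => Q i d).card =
      ∑ i ∈ univ.erase k0, (D.filter fun d => Q i d).card := by
    simp only [card_filter]
    exact sum_comm
  have c4 : ∑ i ∈ univ.erase k0, 1 = ∑ d ∈ D, α d := by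
    rw [← card_eq_sum_ones, card_erase_of_mem (mem_univ _), card_univ, Fintype.card_fin]
    have := F.sum
    omega
  have c5 := sum_le_sum c1
  have c6 := sum_le_sum c2
  have c7 : ∀ d ∈ D, ((univ.erase k0).filter fun i => Q i d).card = α d :=
    (sum_eq_sum_iff_of_le c1).1 (by omega)
  have c8 : ∀ i ∈ univ.erase k0, 1 = (D.filter fun d => Q i d).card :=
    (sum_eq_sum_iff_of_le c2).1 (by omega)
  have c9 : ∀ i, i ≠ k0 → ∃ d, D.filter (fun d => Q i d) = {d} := fun i hi =>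
    card_eq_one.1 (c8 i (mem_erase.2 ⟨hi, mem_univ _⟩)).symm
  choose! g hg using c9
  have g1 : ∀ i ≠ k0, g i ∈ D ∧ Q i (g i) := fun i hi => by
    have : g i ∈ D.filter (fun d => Q i d) := by rw [hg i hi]; exact mem_singleton_self _
    exact mem_filter.1 this
  refine ⟨g, fun i hi => g1 i hi, ?_⟩
  rw [← prod_fiberwise_of_maps_to (g := g) (t := D) (fun i hi => (g1 i (ne_of_mem_erase hi)).1)]
  refine prod_congr rfl fun d hd => ?_
  rw [prod_congr rfl (g := fun _ => d) fun i hi => (mem_filter.1 hi).2, prod_const, ← c7 d hd]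
  congr 2
  ext i
  simp only [mem_filter]
  constructor
  · rintro ⟨hi, rfl⟩
    exact ⟨hi, (g1 i (ne_of_mem_erase hi)).2⟩
  · rintro ⟨hi, h⟩
    refine ⟨hi, ?_⟩
    have h2 : d ∈ D.filter (fun d => Q i d) := mem_filter.2 ⟨hd, h⟩
    rw [hg i (ne_of_mem_erase hi), mem_singleton] at h2
    exact h2.symm

theorem finish' (h0 : ∀ i, n i ≠ 0) (hfin : {s | s ∉ Set.range (ph n)}.Finite) {D : Finset ℕ}
    {α : ℕ → ℕ} {Z : ℕ → Finset (Fin k → ℕ)} (F : Facts n D α Z) (k0 : Fin k) (r : Fin k → ℕ)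
    (hr : ∀ i ≠ k0, ∃ d ∈ D, n i ∣ d ∧ ∃ w j, ph n w = d ∧ w j ≠ 0 ∧ r j < r i) :
    ∃ ρ, Pres n ρ ∧ (∀ σ ⊂ ρ, ¬ Pres n σ) ∧ ρ.card + 1 = k := by
  obtain ⟨g, g1, g3⟩ := matching' F k0 r hr
  have hu : ∀ d ∈ D, ∃ u : Fin k → ℕ, ph n u = d ∧ ∃ j, u j ≠ 0 ∧
      ∀ w l, ph n w = d → w l ≠ 0 → r j ≤ r l := by
    intro d hd
    obtain ⟨x, -, -, hx, -⟩ := ((F.min d).1 hd).1
    obtain ⟨i, hi⟩ : ∃ i, x i ≠ 0 := by
      by_contra hh
      push Not at hh
      rw [show x = 0 from funext hh, ph_zero] at hx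
      exact F.ne d hd hx.symm
    have hne : ∃ m, ∃ w j, ph n w = d ∧ w j ≠ 0 ∧ r j = m := ⟨_, x, i, hx, hi, rfl⟩
    obtain ⟨u, j, hu, huj, hrj⟩ := Nat.find_spec hne
    exact ⟨u, hu, j, huj, fun w l h1 h2 => by
      rw [hrj]
      exact Nat.find_min' hne ⟨w, l, h1, h2, rfl⟩⟩
  choose! u hu u0 using hu
  let ρ := D.biUnion fun d => ((Z d).erase (u d)).image fun w => (w, u d)
  have m : ∀ x y, (x, y) ∈ ρ ↔ x ≠ y ∧ ph n x ∈ D ∧ y = u (ph n x) := by
    intro x y
    simp only [ρ, mem_biUnion, mem_image, mem_erase, Prod.mk.injEq]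
    constructor
    · rintro ⟨d, hd, w, ⟨h1, h2⟩, rfl, rfl⟩
      have h3 := (F.mem d hd w).1 h2
      refine ⟨h1, by rwa [h3], by rw [h3]⟩
    · rintro ⟨h, hd, rfl⟩
      exact ⟨ph n x, hd, x, ⟨h, (F.mem _ hd x).2 rfl⟩, rfl, rfl⟩
  have m2 : ∀ x y, (x, y) ∈ ρ → ph n x = ph n y := by
    intro x y h
    obtain ⟨_, h2, h3⟩ := (m x y).mp h
    rw [h3, hu _ h2]
  have hc : ∀ x y, addConGen (fun x y => (x, y) ∈ ρ) x y → ph n x = ph n y := by
    let φ : (Fin k → ℕ) →+ ℕ := ⟨⟨ph n, ph_zero⟩, ph_add⟩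
    exact fun x y h => (AddCon.addConGen_le (c := AddCon.ker φ)).mpr m2 h
  have rr : ∀ x, ph n x ∈ D → addConGen (fun x y => (x, y) ∈ ρ) x (u (ph n x)) := by
    intro x h
    by_cases e : x = u (ph n x)
    · have h2 := AddCon.refl (addConGen (fun x y => (x, y) ∈ ρ)) x
      exact e ▸ h2
    · exact AddConGen.Rel.of _ _ ((m x _).mpr ⟨e, h, rfl⟩)
  refine ⟨ρ, fun x y => ⟨hc x y, normal' h0 hfin _ hc k0 r (fun i => g i / n i)
    (fun i hi => ?_) ?_ x y⟩, fun σ hσ hs => ?_, ?_⟩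
  · obtain ⟨h1, h2, w, l, h3, h4, h5⟩ := g1 i hi
    have q := ph_single (n := n) i (g i / n i)
    rw [Nat.div_mul_cancel h2] at q
    obtain ⟨j, h6, h7⟩ := u0 _ h1
    have h8 := rr (Pi.single i (g i / n i)) (by rw [q]; exact h1)
    rw [q] at h8
    exact ⟨u (g i), h8, j, h6, lt_of_le_of_lt (h7 w l h3 h4) h5⟩
  · refine Nat.eq_of_mul_eq_mul_right (prod_pos fun i (_ : i ∈ univ.erase k0) =>
      Nat.pos_of_ne_zero (h0 i)) ?_
    rw [mul_prod_erase _ _ (mem_univ k0), F.prod, ← g3, ← prod_mul_distrib]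
    exact prod_congr rfl fun i hi => by
      rw [Nat.div_mul_cancel (g1 i (ne_of_mem_erase hi)).2.1]
  · obtain ⟨⟨x, y⟩, h1, h2⟩ := exists_of_ssubset hσ
    obtain ⟨h3, h4, h5⟩ := (m x y).mp h1
    refine h3 (isolated (n := n) x ((F.min _).1 h4) _ (fun p q h => ?_) y
      ((hs x y).mpr (m2 x y h1)))
    obtain ⟨h6, h7, h8⟩ := (m p q).mp (hσ.1 h)
    refine ⟨m2 p q (hσ.1 h), h6, ?_, ?_⟩
    · rintro rfl
      exact h2 (by rw [h5, ← h8]; exact h)
    · rintro rfl
      apply h3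
      have h9 : ph n q = ph n p := by
        rw [h8]; exact hu _ h7
      rw [h5, h9, ← h8]
  · have h1 : ρ.card = ∑ d ∈ D, α d := by
      rw [card_biUnion]
      · refine sum_congr rfl fun d hd => ?_
        rw [card_image_of_injective _ fun _ _ h => (Prod.mk.inj h).1,
          card_erase_of_mem ((F.mem d hd _).2 (hu d hd)), F.card d hd]
        rfl
      · intro a ha b hb hab
        show Disjoint _ _
        refine disjoint_left.mpr fun p h1 h2 => hab ?_
        obtain ⟨_, -, rfl⟩ := mem_image.mp h1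
        obtain ⟨_, -, h⟩ := mem_image.mp h2
        have h3 := congrArg (ph n) (Prod.mk.inj h).2
        rw [hu b hb, hu a ha] at h3
        exact h3.symm
    rw [h1]
    exact F.sum.symm

/-- there is an arrow from `j` to `i` if some `d ∈ D` is divisible by `n i` and has a factorization
in which `j` occurs -/
def Arrow (n : Fin k → ℕ) (D : Finset ℕ) (j i : Fin k) : Prop :=
  ∃ d ∈ D, n i ∣ d ∧ ∃ w : Fin k → ℕ, ph n w = d ∧ w j ≠ 0

/-- `i` is at distance at most `m` -/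
def Dist (n : Fin k → ℕ) (D : Finset ℕ) (k0 : Fin k) : ℕ → Fin k → Prop
  | 0, i => i = k0
  | m + 1, i => ∃ j, Dist n D k0 m j ∧ Arrow n D j i

theorem finishReach (h0 : ∀ i, n i ≠ 0) (hfin : {s | s ∉ Set.range (ph n)}.Finite) {D : Finset ℕ}
    {α : ℕ → ℕ} {Z : ℕ → Finset (Fin k → ℕ)} (F : Facts n D α Z) (k0 : Fin k)
    (hr : ∀ i, Relation.ReflTransGen (Arrow n D) k0 i) :
    ∃ ρ, Pres n ρ ∧ (∀ σ ⊂ ρ, ¬ Pres n σ) ∧ ρ.card + 1 = k := by
  have hD : ∀ i, ∃ m, Dist n D k0 m i := by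
    intro i
    induction hr i with
    | refl => exact ⟨0, rfl⟩
    | tail _ h ih =>
      obtain ⟨m, hm⟩ := ih
      exact ⟨m + 1, _, hm, h⟩
  refine finish' h0 hfin F k0 (fun i => Nat.find (hD i)) fun i hi => ?_
  obtain ⟨m, hm⟩ : ∃ m, Nat.find (hD i) = m + 1 := Nat.exists_eq_succ_of_ne_zero fun h => by
    have h1 := Nat.find_spec (hD i)
    rw [h] at h1
    exact hi h1
  have h1 := Nat.find_spec (hD i)
  rw [hm] at h1
  obtain ⟨j, hj, d, hd, h2, w, hw, hwj⟩ := h1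
  refine ⟨d, hd, h2, w, j, hw, hwj, ?_⟩
  have h3 := Nat.find_min' (hD j) hj
  show Nat.find (hD j) < Nat.find (hD i)
  omega

end Pool.Agent.KS6_40.NS
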